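import Pool.Agent.W190.M.M8

/-! # Montgomery's inequality for a fixed modulus in windows `[x, x^(1+δ)]`

If the inequality fails for a fixed modulus `q` with a power to spare because of a zero of some
`L(s, χ)`, `χ` modulo `q`, to the right of `Re s = α`, then it fails in EVERY window
`[x, x^(1+δ)]`, `x` large. So the inequality on one sequence of windows implies GRH modulo `q`. -/

set_option autoImplicit false

open Filter Topology

namespace Pool.Agent.Results.MP_848d44_nt.FixedModulusWindows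

/-- `ψ(x, q, a)`: the sum of `Λ(n)` over `1 ≤ n ≤ x`, `n ≡ a` modulo `q`. -/
noncomputable def psi (x : ℝ) (q a : ℕ) : ℝ :=
  ∑ n ∈ (Finset.Icc 1 ⌊x⌋₊).filter (fun n => n ≡ a [MOD q]), ArithmeticFunction.vonMangoldt n

/-- `ρ` is a zero in the critical strip of `L(s, χ)` for some Dirichlet character modulo `q`. -/
def IsZeroMod (q : ℕ) [NeZero q] (ρ : ℂ) : Prop :=
  ∃ χ : DirichletCharacter ℂ q, DirichletCharacter.LFunction χ ρ = 0 ∧ 0 < ρ.re ∧ ρ.re < 1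

/-- **Main theorem.** -/
theorem result (q : ℕ) [NeZero q] (δ : ℝ) (hδ : 0 < δ) :
    (∀ ρ : ℂ, IsZeroMod q ρ → ∀ α : ℝ, α < ρ.re →
      ∀ᶠ x : ℝ in atTop, ∃ u : ℝ, x ≤ u ∧ u ≤ x ^ (1 + δ) ∧ ∃ a : ℕ, a < q ∧ Nat.Coprime a q ∧
        u ^ α < |psi u q a - u / (Nat.totient q : ℝ)|) ∧
    (∀ α : ℝ, 0 ≤ α → (∀ ε : ℝ, 0 < ε → ∃ C : ℝ, ∃ᶠ x : ℝ in atTop,
        ∀ u : ℝ, x ≤ u → u ≤ x ^ (1 + δ) → ∀ a : ℕ, a < q → Nat.Coprime a q →
          |psi u q a - u / (Nat.totient q : ℝ)| ≤ C * (u ^ (α + ε) / (q : ℝ) ^ (1 / 2 : ℝ))) →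
      ∀ ρ : ℂ, IsZeroMod q ρ → ρ.re ≤ α) := by
  have h1 : ∀ ρ : ℂ, IsZeroMod q ρ → ∀ α : ℝ, α < ρ.re →
      ∀ᶠ x : ℝ in atTop, ∃ u : ℝ, x ≤ u ∧ u ≤ x ^ (1 + δ) ∧ ∃ a : ℕ, a < q ∧ Nat.Coprime a q ∧
        u ^ α < |psi u q a - u / (Nat.totient q : ℝ)| := by
    rintro ρ ⟨χ, hρ, h0, h1⟩ α hα
    exact Pool.Agent.W190.M.psiq_large χ hρ h0 h1 α δ hα hδ
  refine ⟨h1, ?_⟩
  intro α _ hfreq ρ hρ
  by_contra hcon
  push Not at hcon
  set g : ℝ := ρ.re - α with hg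
  have hg0 : 0 < g := by rw [hg]; linarith
  obtain ⟨C, hC⟩ := hfreq (g / 4) (by positivity)
  have h3 := h1 ρ hρ (α + g / 2) (by rw [hg]; linarith)
  have hq : (0:ℝ) < q := by exact_mod_cast Nat.pos_of_ne_zero (NeZero.ne q)
  set C' : ℝ := |C| / (q : ℝ) ^ (1 / 2 : ℝ) with hC'
  have hC'0 : 0 ≤ C' := by positivity
  have hgrow := (tendsto_rpow_atTop (by positivity : 0 < g / 4)).eventually_ge_atTop C'
  obtain ⟨X, hX⟩ := eventually_atTop.1 hgrow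
  obtain ⟨x, hx1, ⟨u, hu1, hu2, a, ha1, ha2, hu3⟩, hx3, hx4⟩ :=
    (hC.and_eventually (h3.and ((eventually_ge_atTop X).and (eventually_gt_atTop 0)))).exists
  have hu0 : 0 < u := by linarith
  have h4 := hx1 u hu1 hu2 a ha1 ha2
  have h5 := hX u (by linarith)
  have h6 : C * (u ^ (α + g / 4) / (q : ℝ) ^ (1 / 2 : ℝ)) ≤ u ^ (α + g / 2) := by
    calc C * (u ^ (α + g / 4) / (q : ℝ) ^ (1 / 2 : ℝ)) ≤
        |C| * (u ^ (α + g / 4) / (q : ℝ) ^ (1 / 2 : ℝ)) := by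
          gcongr
          exact le_abs_self C
      _ = C' * u ^ (α + g / 4) := by rw [hC']; ring
      _ ≤ u ^ (g / 4) * u ^ (α + g / 4) := by gcongr
      _ = u ^ (α + g / 2) := by
          rw [← Real.rpow_add hu0]
          congr 1
          ring
  linarith

end Pool.Agent.Results.MP_848d44_nt.FixedModulusWindows
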